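import Pool.Agent.H68.LCS.Targets

/-!
# MP_5607ba_lc, row A_FAC: the action on the space of closed invariant sets is continuous
-/

set_option autoImplicit false

open Set Filter Topology
open scoped Pointwise

namespace Pool.Agent.H49.LCS

open Pool.Agent.H93.CP Pool.Agent.H7.LP Pool.Agent.H7.LQ Pool.Agent.H68.LCS

private lemma fac_op {G : Type} [Group G] [TopologicalSpace G] (R : Subgroup G) (n : ℕ)
    (U : Set G) (hU : IsOpen U) : IsOpen {y : Fe R | (y.y n ∩ U).Nonempty} :=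
  TopologicalSpace.isOpen_generateFrom_of_mem (Or.inl ⟨n, U, hU, rfl⟩)

private lemma fac_cp {G : Type} [Group G] [TopologicalSpace G] (R : Subgroup G) (n : ℕ)
    (D : Set G) (hD : IsCompact D) : IsOpen {y : Fe R | ¬ (y.y n ∩ D).Nonempty} :=
  TopologicalSpace.isOpen_generateFrom_of_mem (Or.inr ⟨n, D, hD, rfl⟩)

theorem pf_FAC (h1 : T_LIT) : T_FAC := by
  intro G _ _ _ R H hP P
  refine @ContinuousSMul.mk H (Fe R) (actF hP).toSMul _ _ ?_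
  show Continuous fun p : H × Fe R => mvF hP p.1 p.2
  refine continuous_generateFrom_iff.2 ?_
  rintro V (⟨n, U, hU, rfl⟩ | ⟨n, D, hD, rfl⟩)
  · rw [isOpen_iff_forall_mem_open]
    rintro ⟨h₀, y₀⟩ ⟨a₀, ha₀, ha₀U⟩
    have ha₀' : a₀ * (h₀ : G) ∈ y₀.y n := ha₀
    have hc : Continuous fun p : H × G => p.2 * ((p.1 : G))⁻¹ :=
      continuous_snd.mul (continuous_subtype_val.comp continuous_fst).inv
    have hmem : ((h₀, a₀ * (h₀ : G)) : H × G) ∈ (fun p : H × G => p.2 * ((p.1 : G))⁻¹) ⁻¹' U := by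
      show a₀ * (h₀ : G) * (h₀ : G)⁻¹ ∈ U
      rwa [mul_inv_cancel_right]
    obtain ⟨N, U', hN, hU', hh₀, hb₀, hsub⟩ := isOpen_prod_iff.1 (hU.preimage hc) h₀
      (a₀ * (h₀ : G)) hmem
    refine ⟨N ×ˢ {y : Fe R | (y.y n ∩ U').Nonempty}, ?_, hN.prod (fac_op R n U' hU'),
      ⟨hh₀, ⟨a₀ * (h₀ : G), ha₀', hb₀⟩⟩⟩
    rintro ⟨h, y⟩ ⟨hh, b, hb, hbU⟩
    have h3 : b * ((h : G))⁻¹ ∈ U := hsub (show ((h, b) : H × G) ∈ N ×ˢ U' from ⟨hh, hbU⟩)
    refine ⟨b * ((h : G))⁻¹, ?_, h3⟩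
    show b * ((h : G))⁻¹ * (h : G) ∈ y.y n
    rwa [inv_mul_cancel_right]
  · rw [isOpen_iff_forall_mem_open]
    rintro ⟨h₀, y₀⟩ hy₀
    have hy₀' : ¬ (y₀.y n ∩ (fun a => a * (h₀ : G)) '' D).Nonempty := by
      rintro ⟨b, hb, a, ha, rfl⟩
      exact hy₀ ⟨a, hb, ha⟩
    have hDc : IsCompact ((fun a => a * (h₀ : G)) '' D) :=
      hD.image (continuous_mul_const (h₀ : G))
    obtain ⟨I, hI1, hI2, -⟩ := (h1 G R P).2.2 y₀ n _ hDc hy₀'
    set O : Set G := ⋃ i ∈ I, P.U i with hO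
    have hOo : IsOpen O := isOpen_biUnion fun i _ => P.opn i
    have hc : Continuous fun p : G × H => p.1 * (p.2 : G) :=
      continuous_fst.mul (continuous_subtype_val.comp continuous_snd)
    have hprod : D ×ˢ ({h₀} : Set H) ⊆ (fun p : G × H => p.1 * (p.2 : G)) ⁻¹' O := by
      rintro ⟨d, h⟩ ⟨hd, hh⟩
      have hh' : h = h₀ := hh
      subst hh'
      obtain ⟨i, hi, hi'⟩ := hI2 (d * (h : G)) ⟨d, hd, rfl⟩
      exact Set.mem_biUnion (t := fun i => P.U i) (s := (I : Set ℕ)) hi hi'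
    obtain ⟨u, v, hu, hv, hDu, hhv, huv⟩ := generalized_tube_lemma hD isCompact_singleton
      (hOo.preimage hc) hprod
    refine ⟨v ×ˢ (⋂ i ∈ I, {y : Fe R | ¬ (y.y n ∩ P.D i).Nonempty}), ?_,
      hv.prod (isOpen_biInter_finset fun i _ => fac_cp R n _ (P.cpt i)),
      ⟨hhv rfl, Set.mem_iInter₂.2 fun i hi => hI1 i hi⟩⟩
    rintro ⟨h, y⟩ ⟨hh, hy⟩ ⟨a, ha, haD⟩
    have ha' : a * (h : G) ∈ y.y n := ha
    have h3 : a * (h : G) ∈ O := huv (show ((a, h) : G × H) ∈ u ×ˢ v from ⟨hDu haD, hh⟩)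
    obtain ⟨i, hi, hi'⟩ := Set.mem_iUnion₂.1 h3
    exact Set.mem_iInter₂.1 hy i hi ((h1 G R P).1 y n i ⟨_, ha', hi'⟩)

end Pool.Agent.H49.LCS
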